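import Pool.Agent.Helper76.CV.Goals

/-!
Project CV, packet DISJ: the two tunnels are disjoint near the boundary of the capsule.
-/

open scoped ContDiff
open Filter Topology

namespace Pool.Agent.Helper10.CV.DISJ

open Pool.Agent.Helper76.CV

theorem sqcmp (b z : ℝ) (hb : -(4 / 25) ≤ b) (hb' : b ≤ 4 / 25) (hz : 0 ≤ z)
    (h : 4 / 125 + b ^ 2 ≤ z ^ 2) : 4 / 5 + 13 * b ≤ 12 * z := by
  by_contra h7
  push Not at h7
  have h8 : (12 * z) ^ 2 < (4 / 5 + 13 * b) ^ 2 :=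
    pow_lt_pow_left₀ h7 (by positivity) (by norm_num)
  have h9 := mul_nonneg (sub_nonneg.2 hb') (by linarith : (0 : ℝ) ≤ b + 124 / 125)
  have e1 : (12 * z) ^ 2 = 144 * z ^ 2 := by ring
  have e2 : (4 / 5 + 13 * b) ^ 2 = 16 / 25 + 104 / 5 * b + 169 * b ^ 2 := by ring
  have e3 : (4 / 25 - b) * (b + 124 / 125) = 496 / 3125 - 104 / 125 * b - b ^ 2 := by ring
  rw [e1, e2] at h8
  rw [e3] at h9
  linarith

theorem quad (u k : ℝ) (hu0 : 0 ≤ u) (hk2 : k ^ 2 ≤ u) (hA2 : u + 84 / 625 ≤ 4 / 5 * k) :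
    36 / 625 ≤ u ∧ u ≤ 196 / 625 := by
  have h5 : (u + 84 / 625) ^ 2 ≤ (4 / 5 * k) ^ 2 :=
    pow_le_pow_left₀ (by positivity) hA2 2
  have hq : (u - 36 / 625) * (u - 196 / 625) ≤ 0 := by
    have e1 : (u - 36 / 625) * (u - 196 / 625) = (u + 84 / 625) ^ 2 - 16 / 25 * u := by ring
    have e2 : (4 / 5 * k) ^ 2 = 16 / 25 * k ^ 2 := by ring
    rw [e2] at h5
    rw [e1]
    linarith
  constructor
  · by_contra h
    push Not at h
    have := mul_pos (sub_pos.2 h) (by linarith : (0 : ℝ) < 196 / 625 - u)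
    nlinarith
  · by_contra h
    push Not at h
    have := mul_pos (by linarith : (0 : ℝ) < u - 36 / 625) (sub_pos.2 h)
    nlinarith

theorem conv (y1 y2 : ℝ) (h0 : 0 ≤ y1) (h : 0 ≤ y2) (hu : y2 ≤ 22 / 25)
    (h10 : 12 * y1 ≤ 182 / 25 - 5 * y2) : y1 ^ 2 + y2 ^ 2 ≤ 104 / 125 := by
  have h11 : (12 * y1) ^ 2 ≤ (182 / 25 - 5 * y2) ^ 2 :=
    pow_le_pow_left₀ (by positivity) h10 2
  have h12 := mul_nonneg h (sub_nonneg.2 hu)
  have e1 : (12 * y1) ^ 2 = 144 * y1 ^ 2 := by ring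
  have e2 : (182 / 25 - 5 * y2) ^ 2 = 33124 / 625 - 364 / 5 * y2 + 25 * y2 ^ 2 := by ring
  have e3 : y2 * (22 / 25 - y2) = 22 / 25 * y2 - y2 ^ 2 := by ring
  rw [e1, e2] at h11
  rw [e3] at h12
  linarith

theorem core (y0 y1 y2 SA SB c s : ℝ) (hSA : 0 ≤ SA) (hSB : 0 ≤ SB) (hcs : c ^ 2 + s ^ 2 = 1)
    (h1 : y0 ^ 2 + y1 ^ 2 + y2 ^ 2 + SA + SB ≤ 1)
    (hA : (y1 - 2 / 5 * c) ^ 2 + (y0 - 2 / 5 * s) ^ 2 + SA ≤ (4 / 25) ^ 2)
    (hB : ((12 * y1 + 5 * y2) / 13 - 2 / 5) ^ 2 + y0 ^ 2 + SB ≤ (4 / 25) ^ 2) :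
    y0 ^ 2 + y1 ^ 2 + y2 ^ 2 + SA + SB ≤ 19 / 20 ∧ 0 ≤ y1 := by
  obtain ⟨b, hb⟩ : ∃ b, b = (12 * y1 + 5 * y2) / 13 - 2 / 5 := ⟨_, rfl⟩
  rw [← hb] at hB
  have hb2 : b ^ 2 ≤ (4 / 25) ^ 2 := by
    have := sq_nonneg y0
    linarith
  have hbabs := abs_le_of_sq_le_sq' hb2 (by norm_num)
  obtain ⟨hbl, hbu⟩ := hbabs
  -- the ring
  obtain ⟨k, hk⟩ : ∃ k, k = y1 * c + y0 * s := ⟨_, rfl⟩
  obtain ⟨u, hu⟩ : ∃ u, u = y0 ^ 2 + y1 ^ 2 := ⟨_, rfl⟩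
  have hk2 : k ^ 2 ≤ u := by
    have e : u - k ^ 2 = (y1 * s - y0 * c) ^ 2 := by
      rw [hu, hk]
      have : y0 ^ 2 + y1 ^ 2 = (y0 ^ 2 + y1 ^ 2) * (c ^ 2 + s ^ 2) := by rw [hcs, mul_one]
      rw [this]; ring
    have := sq_nonneg (y1 * s - y0 * c)
    linarith
  have hA2 : u + 84 / 625 ≤ 4 / 5 * k := by
    have e : (y1 - 2 / 5 * c) ^ 2 + (y0 - 2 / 5 * s) ^ 2 = u - 4 / 5 * k + 4 / 25 * (c ^ 2 + s ^ 2) := by
      rw [hu, hk]; ring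
    rw [e, hcs] at hA
    norm_num at hA
    linarith
  have hu0 : 0 ≤ u := by rw [hu]; positivity
  obtain ⟨hul, huu⟩ := quad u k hu0 hk2 hA2
  have hy1 : 4 / 125 + b ^ 2 ≤ y1 ^ 2 := by
    norm_num at hB
    linarith
  have hlin : 5 * y2 = 26 / 5 + 13 * b - 12 * y1 := by rw [hb]; ring
  have hpos : 0 ≤ y1 := by
    by_contra h
    push Not at h
    have h6 := sqcmp (-b) (-y1) (by linarith) (by linarith) (by linarith)
      (by rw [neg_sq, neg_sq]; exact hy1)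
    have h9 : 6 / 5 ≤ y2 := by linarith
    have h10 : (6 / 5) ^ 2 ≤ y2 ^ 2 := pow_le_pow_left₀ (by norm_num) h9 2
    have h11 := sq_nonneg y0
    have h12 := sq_nonneg y1
    norm_num at h10
    linarith
  refine ⟨?_, hpos⟩
  have h6 := sqcmp b y1 hbl hbu hpos hy1
  have hy2u : y2 ≤ 22 / 25 := by linarith
  have hy1u : y1 ≤ 14 / 25 := by
    by_contra h
    push Not at h
    have h10 : (14 / 25) ^ 2 < y1 ^ 2 := pow_lt_pow_left₀ h (by norm_num) (by norm_num)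
    have h11 := sq_nonneg y0
    norm_num at h10
    linarith
  have hmain : y1 ^ 2 + y2 ^ 2 ≤ 104 / 125 := by
    rcases le_total y2 0 with h | h
    · have h10 : -(18 / 25) ≤ y2 := by linarith
      have h11 : (-y2) ^ 2 ≤ (18 / 25) ^ 2 := pow_le_pow_left₀ (by linarith) (by linarith) 2
      have h12 : y1 ^ 2 ≤ (14 / 25) ^ 2 := pow_le_pow_left₀ hpos hy1u 2
      rw [neg_sq] at h11
      norm_num at h11 h12
      linarith
    · exact conv y1 y2 hpos h hy2u (by linarith)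
  have h13 : SA ≤ 16 / 625 := by
    have h15 := sq_nonneg (y1 - 2 / 5 * c)
    have h16 := sq_nonneg (y0 - 2 / 5 * s)
    have h17 : ((4 : ℝ) / 25) ^ 2 = 16 / 625 := by norm_num
    rw [h17] at hA
    linarith
  have h14 : y0 ^ 2 + SB ≤ 16 / 625 := by
    have h15 := sq_nonneg b
    have h17 : ((4 : ℝ) / 25) ^ 2 = 16 / 625 := by norm_num
    rw [h17] at hB
    linarith
  linarith

theorem t : Pool.Agent.Helper76.CV.DISJ := by
  intro r A θ y hy hA hB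
  obtain ⟨SA, hSA⟩ : ∃ SA, SA = ∑ j : Fin r, (if A j then (1 : ℝ) else 0) * (y j.succ.succ.succ) ^ 2 := ⟨_, rfl⟩
  obtain ⟨SB, hSB⟩ : ∃ SB, SB = ∑ j : Fin r, (1 - (if A j then (1 : ℝ) else 0)) * (y j.succ.succ.succ) ^ 2 := ⟨_, rfl⟩
  rw [← hSA] at hA
  rw [← hSB] at hB
  have hn : ‖y‖ ^ 2 = y 0 ^ 2 + y 1 ^ 2 + y 2 ^ 2 + SA + SB := by
    rw [EuclideanSpace.norm_sq_eq, Fin.sum_univ_succ, Fin.sum_univ_succ, Fin.sum_univ_succ, hSA, hSB]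
    simp only [Real.norm_eq_abs, sq_abs]
    have e : ∑ j : Fin r, (y j.succ.succ.succ) ^ 2 =
        ∑ j : Fin r, (if A j then (1 : ℝ) else 0) * (y j.succ.succ.succ) ^ 2 +
        ∑ j : Fin r, (1 - (if A j then (1 : ℝ) else 0)) * (y j.succ.succ.succ) ^ 2 := by
      rw [← Finset.sum_add_distrib]
      exact Finset.sum_congr rfl fun j _ => by ring
    rw [e]
    have e1 : (Fin.succ 0 : Fin (r + 3)) = 1 := rfl
    have e2 : (Fin.succ (Fin.succ 0) : Fin (r + 3)) = 2 := rfl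
    rw [e1, e2]
    ring
  have h0A : 0 ≤ SA := by
    rw [hSA]
    refine Finset.sum_nonneg fun j _ => mul_nonneg ?_ (sq_nonneg _)
    split_ifs <;> norm_num
  have h0B : 0 ≤ SB := by
    rw [hSB]
    refine Finset.sum_nonneg fun j _ => mul_nonneg ?_ (sq_nonneg _)
    split_ifs <;> norm_num
  have h1 : y 0 ^ 2 + y 1 ^ 2 + y 2 ^ 2 + SA + SB ≤ 1 := by
    rw [← hn]
    have := norm_nonneg y
    nlinarith
  have hcs : Real.cos θ ^ 2 + Real.sin θ ^ 2 = 1 := Real.cos_sq_add_sin_sq θ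
  obtain ⟨h2, h3⟩ := core (y 0) (y 1) (y 2) SA SB (Real.cos θ) (Real.sin θ) h0A h0B hcs h1 hA hB
  refine ⟨by rw [hn]; exact h2, ?_⟩
  rintro ⟨hc, hs⟩
  rw [hc, hs] at hA
  nlinarith [sq_nonneg (y 0 - 2 / 5 * 0)]

end Pool.Agent.Helper10.CV.DISJ
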